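import Mathlib
import Pool.Agent.H504R3.SDefs

/-!
# Types, indiscernible sequences, dividing and simplicity for theories of tracial von Neumann algebras

Structures, formulas, elementary equivalence and the hyperfinite II_1 factor are those of
`Pool.Agent.H504R3.SDefs`.
-/

set_option autoImplicit false

namespace Pool.Agent.H987S

open Pool.Agent.H504R3.S

/-- Formulas in the variables `x 0, …, x (n - 1)` with parameters from `P`: a formula `φ` in `n + m`
variables, and a parameter `w i` for each of the last `m` variables. -/
structure PFm (n : ℕ) (P : Type) where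
  /-- the number of parameters -/
  m : ℕ
  /-- the formula -/
  φ : Fm (n + m)
  /-- the parameters -/
  w : Fin m → P

namespace PFm

variable {n : ℕ} {P Q : Type}

/-- The value of a formula with parameters from `P` in the structure `M`, where the parameter `b`
is interpreted by the element `s b` of `M`. -/
noncomputable def val (M : Str) (s : P → M.carrier) (ψ : PFm n P) (x : Fin n → M.carrier) : ℝ :=
  ψ.φ.val M (Fin.append x fun i => s (ψ.w i))

/-- Replacing each parameter `b` by `f b`. -/
def map (f : P → Q) (ψ : PFm n P) : PFm n Q := ⟨ψ.m, ψ.φ, fun i => f (ψ.w i)⟩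

end PFm

/-- The conditions on `n`-tuples over the structure `M`: the pair `(ψ, c)` is the condition
`ψ(x) = c`, where `ψ` is a formula with parameters from `M`. -/
abbrev Cond (M : Str) (n : ℕ) : Type := PFm n M.carrier × ℝ

/-- The set `Γ` of conditions over `M`, on `n`-tuples of variables which range over the ball of
radius `r`, is consistent (with the elementary diagram of `M`): finitely many of the conditions can
be satisfied in `M` up to any given error.  By compactness this means that `Γ` is realised in an
elementary extension of `M`. -/
def Consistent (M : Str) (r n : ℕ) (Γ : Set (Cond M n)) : Prop :=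
  ∀ F : Finset (Cond M n), (F : Set (Cond M n)) ⊆ Γ → ∀ ε : ℝ, 0 < ε →
    ∃ x : Fin n → M.carrier, (∀ i, M.nrm (x i) ≤ r) ∧
      ∀ c ∈ F, |c.1.val M id x - c.2| < ε

/-- The conditions `ψ(x, s) = p ψ`, where `ψ` runs through all formulas with parameters from `P` and
the parameters are interpreted by `s : P → M`. -/
def conds (M : Str) {n : ℕ} {P : Type} (p : PFm n P → ℝ) (s : P → M.carrier) : Set (Cond M n) :=
  {c | ∃ ψ : PFm n P, c = (ψ.map s, p ψ)}

/-- `p` is a complete type over the subset `B` of `M` in `n` variables which range over the ball of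
radius `r`: `p` assigns a value to every formula with parameters from `B`, and the set of conditions
`ψ(x) = p ψ` is consistent. -/
def IsType (M : Str) (B : Set M.carrier) (r n : ℕ) (p : PFm n B → ℝ) : Prop :=
  Consistent M r n (conds M p fun b : B => (b : M.carrier))

/-- `ι` is an elementary embedding of `M` in `N`. -/
def IsElementary (M N : Str) (ι : M.carrier → N.carrier) : Prop :=
  ∀ (n : ℕ) (φ : Fm n) (x : Fin n → M.carrier), φ.val N (fun i => ι (x i)) = φ.val M x

/-- The sequence `s 0, s 1, …` of tuples (all indexed by `P`) of elements of `N` is indiscernible over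
the subset `A` of `N`: for `k` in `ℕ` and `f 0 < … < f (k - 1)`, `g 0 < … < g (k - 1)` in `ℕ`, every
formula with parameters from `A` has the same value at `s (f 0), …, s (f (k - 1))` and at
`s (g 0), …, s (g (k - 1))`. -/
def IsIndiscernible (N : Str) (A : Set N.carrier) {P : Type} (s : ℕ → P → N.carrier) : Prop :=
  ∀ (k m : ℕ) (φ : Fm m) (w : Fin m → (Fin k × P) ⊕ A) (f g : Fin k → ℕ), StrictMono f →
    StrictMono g →
    φ.val N (fun i => Sum.elim (fun t : Fin k × P => s (f t.1) t.2) (fun a : A => a.1) (w i)) =
      φ.val N (fun i => Sum.elim (fun t : Fin k × P => s (g t.1) t.2) (fun a : A => a.1) (w i))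

/-- The type `p` over the subset `B` of `M` divides over the subset `A` of `M`: in some elementary
extension `N` of `M` there is a sequence `s 0, s 1, …` of tuples indexed by `B`, which is
indiscernible over `A`, such that `s 0` is the enumeration of `B` by itself and the union of the
sets of conditions `p(x, s 0)`, `p(x, s 1)`, … is inconsistent. -/
def Divides (M : Str) (B : Set M.carrier) (r n : ℕ) (p : PFm n B → ℝ) (A : Set M.carrier) : Prop :=
  ∃ N : Str, N.IsTVN ∧ ∃ ι : M.carrier → N.carrier, IsElementary M N ι ∧
    ∃ s : ℕ → B → N.carrier, s 0 = (fun b : B => ι (b : M.carrier)) ∧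
      IsIndiscernible N (ι '' A) s ∧ ¬ Consistent N r n (⋃ i, conds N p (s i))

/-- The subset `A` of `M` is separable for the 2-norm. -/
def IsSeparableSet (M : Str) (A : Set M.carrier) : Prop :=
  ∃ S : Set M.carrier, S.Countable ∧ S ⊆ A ∧
    ∀ x ∈ A, ∀ ε : ℝ, 0 < ε → ∃ y ∈ S, M.norm2 (M.sub x y) < ε

/-- The complete theory of `R` is simple: every type over a subset `B` of a model `M` of the theory
of `R` does not divide over some separable subset `A` of `B`. -/
def IsSimpleTheory (R : Str) : Prop :=
  ∀ M : Str, M.IsTVN → R.ElemEq M → ∀ (B : Set M.carrier) (r n : ℕ) (p : PFm n B → ℝ),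
    IsType M B r n p → ∃ A : Set M.carrier, A ⊆ B ∧ IsSeparableSet M A ∧ ¬ Divides M B r n p A

end Pool.Agent.H987S
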