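import Mathlib
import Pool.Agent.H504R3.Bridge
import Pool.Agent.H504R3.Flip
import Pool.Agent.R970.SI.Unif

/-! # Permutations of the tensor factors preserve the values of formulas -/

set_option autoImplicit false

namespace Pool.Agent.H987S

open Pool.Agent.H504R3 (TVN M2 pm Cmm exists_perm Ws_single pauliSys)
open Pool.Agent.H504R3.S
open Pool.Agent.R970.SI

theorem tval_hom {M N : TVN} (α : N.E →⋆ₐ[ℂ] M.E) {U : Type} (x : U → N.E) : ∀ t : Tm U,
    tval M (fun i => α (x i)) t = α (tval N x t)
  | .var v => rfl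
  | .one => (map_one α).symm
  | .add s t => by
    show tval M _ s + tval M _ t = α (tval N x s + tval N x t)
    rw [tval_hom α x s, tval_hom α x t, map_add]
  | .mul s t => by
    show tval M _ s * tval M _ t = α (tval N x s * tval N x t)
    rw [tval_hom α x s, tval_hom α x t, map_mul]
  | .adj s => by
    show star (tval M _ s) = α (star (tval N x s))
    rw [tval_hom α x s, map_star]
  | .scal c s => by
    show c • tval M _ s = α (c • tval N x s)
    rw [tval_hom α x s, map_smul]

/-- isomorphisms preserve the values of formulas -/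
theorem val_surj {M N : TVN} (α : N.E →⋆ₐ[ℂ] M.E) (hs : Function.Surjective α)
    (htr : ∀ x, M.τ (α x) = N.τ x) (hop : ∀ x, M.opNorm (α x) = N.opNorm x) {n : ℕ} (φ : Fm n) :
    ∀ x : Fin n → N.E, φ.val (str N) x = φ.val (str M) (fun i => α (x i)) := by
  have hn2 : ∀ x : N.E, M.norm2 (α x) = N.norm2 x := by
    intro x
    unfold TVN.norm2
    rw [← map_star, ← map_mul, htr]
  have hsurj : ∀ r : ℕ, Function.Surjective (fun y : (str N).Ball r =>
      (⟨α y.1, (hop y.1).le.trans y.2⟩ : (str M).Ball r)) := by
    intro r z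
    obtain ⟨y, hy⟩ := hs z.1
    have hy' : N.opNorm y ≤ r := by
      rw [← hop, hy]
      exact z.2
    exact ⟨⟨y, hy'⟩, Subtype.ext hy⟩
  have hcons : ∀ {n : ℕ} (b : N.E) (a : Fin n → N.E),
      (fun i => α ((Fin.cons b a : Fin (n + 1) → N.E) i)) =
        (Fin.cons (α b) (fun i => α (a i)) : Fin (n + 1) → M.E) := by
    intro n b a
    funext i
    refine Fin.cases rfl (fun i => rfl) i
  induction φ with
  | re t =>
    intro x
    show (N.τ (tval N x t)).re = (M.τ (tval M (fun i => α (x i)) t)).re
    rw [tval_hom, htr]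
  | im t =>
    intro x
    show (N.τ (tval N x t)).im = (M.τ (tval M (fun i => α (x i)) t)).im
    rw [tval_hom, htr]
  | nrm t =>
    intro x
    show N.norm2 (tval N x t) = M.norm2 (tval M (fun i => α (x i)) t)
    rw [tval_hom, hn2]
  | conn u φ ih =>
    intro x
    show u (fun i => (φ i).val (str N) _) = u (fun i => (φ i).val (str M) _)
    congr 1
    funext i
    exact ih i x
  | @sup n r φ ih =>
    intro x
    refine Function.Surjective.iSup_congr _ (hsurj r) fun y => ?_
    refine Eq.trans ?_ (ih (Fin.cons y.1 x : Fin (n + 1) → N.E)).symm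
    exact congrArg (φ.val (str M)) (hcons y.1 x).symm
  | @inf n r φ ih =>
    intro x
    refine Function.Surjective.iInf_congr _ (hsurj r) fun y => ?_
    refine Eq.trans ?_ (ih (Fin.cons y.1 x : Fin (n + 1) → N.E)).symm
    exact congrArg (φ.val (str M)) (hcons y.1 x).symm

/-- conjugation by a unitary -/
noncomputable def conj {R : TVN} (u : R.E) (h1 : star u * u = 1) (h2 : u * star u = 1) :
    R.E →⋆ₐ[ℂ] R.E where
  toFun y := u * y * star u
  map_one' := by rw [mul_one, h2]
  map_mul' x y := by
    calc u * (x * y) * star u = u * x * (1 : R.E) * y * star u := by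
          rw [mul_one]; simp only [mul_assoc]
      _ = _ := by rw [← h1]; simp only [mul_assoc]
  map_zero' := by rw [mul_zero, zero_mul]
  map_add' x y := by rw [mul_add, add_mul]
  commutes' c := by
    rw [Algebra.algebraMap_eq_smul_one, mul_smul_comm, mul_one, smul_mul_assoc, h2]
  map_star' x := by rw [star_mul, star_mul, star_star, mul_assoc]

theorem conj_apply {R : TVN} (u : R.E) (h1 : star u * u = 1) (h2 : u * star u = 1) (y : R.E) :
    conj u h1 h2 y = u * y * star u := rfl

theorem op_unitary (M : TVN) {u : M.E} (hu : star u * u = 1) : M.opNorm u ≤ 1 := by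
  have h1 : ‖star u * u‖ = ‖u‖ * ‖u‖ := CStarRing.norm_star_mul_self
  have h2 : ‖(1 : M.E)‖ ≤ 1 := by
    show ‖(1 : M.H →L[ℂ] M.H)‖ ≤ 1
    exact ContinuousLinearMap.norm_id_le
  rw [hu] at h1
  show ‖u‖ ≤ 1
  have h3 := norm_nonneg u
  nlinarith

theorem conj_le {R : TVN} (u : R.E) (h1 : star u * u = 1) (y : R.E) :
    R.opNorm (u * y * star u) ≤ R.opNorm y := by
  have hu := op_unitary R h1
  refine (op_mul R _ _).trans ?_
  rw [op_star]
  have h3 := op_mul R u y
  have h4 := op_nonneg R u
  have h5 := op_nonneg R y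
  have h6 := op_nonneg R (u * y)
  nlinarith

theorem val_conj {R : TVN} (u : R.E) (h1 : star u * u = 1) (h2 : u * star u = 1) {n : ℕ}
    (φ : Fm n) (x : Fin n → R.E) :
    φ.val (str R) x = φ.val (str R) (fun i => u * x i * star u : Fin n → R.E) := by
  have key : ∀ y : R.E, star u * (u * y * star u) * u = y := by
    intro y
    calc star u * (u * y * star u) * u = (star u * u) * y * (star u * u) := by
          simp only [mul_assoc]
      _ = y := by rw [h1, one_mul, mul_one]
  refine val_surj (conj u h1 h2) ?_ ?_ ?_ φ x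
  · intro y
    refine ⟨star u * y * u, ?_⟩
    rw [conj_apply]
    calc u * (star u * y * u) * star u = (u * star u) * y * (u * star u) := by
          simp only [mul_assoc]
      _ = y := by rw [h2, one_mul, mul_one]
  · intro y
    rw [conj_apply, R.tracial, ← mul_assoc, h1, one_mul]
  · intro y
    rw [conj_apply]
    refine le_antisymm (conj_le u h1 y) ?_
    have h3 := conj_le (star u) (by rw [star_star]; exact h2) (u * y * star u)
    rw [star_star, key] at h3
    exact h3

/-- finite partial injections extend to finitely supported permutations -/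
theorem exists_ext : ∀ (q : ℕ) (g h : Fin q → ℕ), (∀ l l', g l = g l' ↔ h l = h l') →
    ∃ σ ∈ Subgroup.closure {σ : Equiv.Perm ℕ | σ.IsSwap}, ∀ l, σ (g l) = h l
  | 0, _, _, _ => ⟨1, one_mem _, fun l => l.elim0⟩
  | q + 1, g, h, hgh => by
    obtain ⟨σ, hσ, h1⟩ := exists_ext q (fun l => g l.castSucc) (fun l => h l.castSucc)
      (fun l l' => hgh _ _)
    by_cases hex : ∃ l : Fin q, g (Fin.last q) = g l.castSucc
    · obtain ⟨l, hl⟩ := hex
      refine ⟨σ, hσ, fun k => ?_⟩
      refine Fin.lastCases ?_ (fun i => h1 i) k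
      rw [hl, h1]
      exact ((hgh _ _).1 hl).symm
    · push Not at hex
      by_cases hyz : σ (g (Fin.last q)) = h (Fin.last q)
      · refine ⟨σ, hσ, fun k => ?_⟩
        exact Fin.lastCases hyz (fun i => h1 i) k
      · refine ⟨Equiv.swap (σ (g (Fin.last q))) (h (Fin.last q)) * σ,
          mul_mem (Subgroup.subset_closure ⟨_, _, hyz, rfl⟩) hσ, fun k => ?_⟩
        refine Fin.lastCases ?_ (fun i => ?_) k
        · rw [Equiv.Perm.mul_apply, Equiv.swap_apply_left]
        · rw [Equiv.Perm.mul_apply, h1]
          refine Equiv.swap_apply_of_ne_of_ne ?_ ?_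
          · intro h2
            rw [← h1] at h2
            exact hex i (σ.injective h2).symm
          · intro h2
            exact hex i ((hgh _ _).2 h2).symm

/-- permutations of the tensor factors preserve the values of formulas -/
theorem val_perm {R : TVN} {j : ℕ → (M2 →⋆ₐ[ℂ] R.E)} (hc : Cmm j) (m : M2) {q : ℕ} (φ : Fm q)
    (g h : Fin q → ℕ) (hgh : ∀ l l', g l = g l' ↔ h l = h l') :
    φ.val (str R) (fun l => j (g l) m : Fin q → R.E) =
      φ.val (str R) (fun l => j (h l) m : Fin q → R.E) := by
  obtain ⟨σ, hσ, h1⟩ := exists_ext q g h hgh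
  obtain ⟨u, hu1, hu2, hu3⟩ := exists_perm hc σ hσ
  rw [val_conj u hu1 hu2]
  congr 1
  funext l
  rw [hu3, h1, mul_assoc, hu2, mul_one]

end Pool.Agent.H987S
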