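import Mathlib
import Pool.Agent.H504R3.Bridge
import Pool.Agent.Helper278.Model
import Pool.Agent.Helper278.CEMod
import Pool.Agent.R970.SI.Unif

/-! # Tracial ultrapowers as structures of continuous logic -/

set_option autoImplicit false

namespace Pool.Agent.H987S

open Filter Topology
open scoped BoundedContinuousFunction InnerProductSpace
open Pool.Agent.H504R3 (TVN)
open Pool.Agent.H504R3.S
open Pool.Agent.R970.SI
open Pool.Agent.Helper278 (TracialState IsTracialUltrapower Elt TrAlg n2 exists_ultrapower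
  sigma_trAlg sigmaL)

/-- the trace as a tracial state -/
noncomputable def ts (R : TVN) : TracialState R.N where
  τ := R.τ
  normal := R.normal
  map_one := R.map_one
  tracial := R.tracial
  faithful := R.faithful

/-- `M` is the ultrapower of `R` along `U`, with the quotient map `P` -/
structure IsUlt (R M : TVN) (U : Ultrafilter ℕ) (P : (ℕ →ᵇ R.E) →⋆ₐ[ℂ] M.E) : Prop where
  trace : ∀ x, Tendsto (fun n => R.τ (x n)) U (𝓝 (M.τ (P x)))
  ball : ∀ (r : ℕ) (z : M.E), M.opNorm z ≤ r ↔
    ∃ x : ℕ →ᵇ R.E, (∀ n, R.opNorm (x n) ≤ r) ∧ P x = z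

theorem exists_ult (R : TVN) (U : Ultrafilter ℕ) (hU : ∀ n, {n} ∉ U) :
    ∃ (M : TVN) (P : (ℕ →ᵇ R.E) →⋆ₐ[ℂ] M.E), IsUlt R M U P := by
  obtain ⟨Q, _, _, _, _, π, σ, hπ⟩ := exists_ultrapower (ts R) U
  have hS := sigma_trAlg hπ
  have hB := Pool.Agent.Helper278.CE.ball_ultra hU hπ
  obtain ⟨K, _, _, _, j, hd, hj⟩ := Pool.Agent.Helper278.CE.exists_gns hS
  set e := Pool.Agent.Helper278.CE.LmEquiv hS hd hj hB with he
  have hτ : ∀ a, Pool.Agent.Helper278.CE.tauM j (e a) = sigmaL hπ a :=
    Pool.Agent.Helper278.CE.tauM_LmEquiv hS hd hj hB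
  have hτ' : ∀ x, Pool.Agent.Helper278.CE.tauM j x = sigmaL hπ (e.symm x) := by
    intro x
    rw [← hτ, e.apply_symm_apply]
  let M : TVN :=
    { H := K
      N := Pool.Agent.Helper278.CE.MM j
      τ :=
        { toFun := Pool.Agent.Helper278.CE.tauM j
          map_add' := fun x y => by rw [hτ', hτ', hτ', map_add e.symm, map_add]
          map_smul' := fun c x => by
            rw [hτ', hτ', map_smul e.symm, map_smul, RingHom.id_apply] }
      map_one := by
        show Pool.Agent.Helper278.CE.tauM j 1 = 1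
        rw [hτ', map_one e.symm]
        exact hS.one
      tracial := fun x y => by
        show Pool.Agent.Helper278.CE.tauM j (x * y) = Pool.Agent.Helper278.CE.tauM j (y * x)
        rw [hτ', hτ', map_mul e.symm, map_mul e.symm]
        exact hS.comm _ _
      faithful := fun x hx => by
        have hx' : Pool.Agent.Helper278.CE.tauM j (star x * x) = 0 := hx
        rw [hτ', map_mul e.symm, map_star e.symm] at hx'
        have h1 := hS.faithful _ hx'
        rw [← e.apply_symm_apply x, h1, map_zero]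
      normal := Pool.Agent.Helper278.CE.normal_vector _ _ (j 1) fun _ => rfl }
  have hMτ : ∀ a, M.τ (e a) = sigmaL hπ a := hτ
  have hball1 : ∀ z : M.E, M.opNorm z ≤ 1 ↔ ∃ x : ℕ →ᵇ R.E, (∀ n, R.opNorm (x n) ≤ 1) ∧
      e (π x) = z := by
    intro z
    constructor
    · intro hz
      obtain ⟨a, ⟨x, hx, rfl⟩, ha⟩ :=
        Pool.Agent.Helper278.CE.exists_of_mem hS hd hj hB (z : K →L[ℂ] K) z.2 hz
      exact ⟨x, hx, Subtype.ext ha.symm⟩
    · rintro ⟨x, hx, rfl⟩
      exact Pool.Agent.Helper278.CE.norm_Lm_le hS hd hj hB (π x) ⟨x, hx, rfl⟩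
  refine ⟨M, (e : Q →⋆ₐ[ℂ] M.E).comp π, ?_, ?_⟩
  · intro x
    have h1 := hπ.trace x
    have h2 : M.τ ((e : Q →⋆ₐ[ℂ] M.E).comp π x) = σ (π x) := hMτ (π x)
    rw [h2]
    exact h1
  · intro r z
    show M.opNorm z ≤ r ↔ ∃ x : ℕ →ᵇ R.E, (∀ n, R.opNorm (x n) ≤ r) ∧ e (π x) = z
    rcases Nat.eq_zero_or_pos r with rfl | hr
    · constructor
      · intro hz
        refine ⟨0, fun n => ?_, ?_⟩
        · show R.opNorm 0 ≤ _
          rw [op_zero]
          simp
        · rw [map_zero, map_zero]
          have h1 : ‖(z : K →L[ℂ] K)‖ ≤ 0 := by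
            have h2 : M.opNorm z ≤ ((0 : ℕ) : ℝ) := hz
            rw [Nat.cast_zero] at h2
            exact h2
          exact (Subtype.ext (norm_le_zero_iff.1 h1)).symm
      · rintro ⟨x, hx, rfl⟩
        have h1 : x = 0 := by
          ext1 n
          have h2 : R.opNorm (x n) ≤ 0 := by
            have := hx n
            rwa [Nat.cast_zero] at this
          exact Subtype.ext (norm_le_zero_iff.1 h2)
        rw [h1, map_zero, map_zero]
        show M.opNorm 0 ≤ _
        rw [op_zero]
        simp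
    · have hr' : (0 : ℝ) < r := by exact_mod_cast hr
      have hc : ‖((r : ℝ) : ℂ)⁻¹‖ = (r : ℝ)⁻¹ := by
        rw [norm_inv, Complex.norm_real, Real.norm_eq_abs, abs_of_pos hr']
      have hc' : ‖((r : ℝ) : ℂ)‖ = (r : ℝ) := by
        rw [Complex.norm_real, Real.norm_eq_abs, abs_of_pos hr']
      have hne : ((r : ℝ) : ℂ) ≠ 0 := by exact_mod_cast hr'.ne'
      constructor
      · intro hz
        obtain ⟨x, hx, hxz⟩ := (hball1 (((r : ℝ) : ℂ)⁻¹ • z)).1 (by
          rw [op_smul, hc, inv_mul_le_iff₀ hr', mul_one]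
          exact hz)
        refine ⟨((r : ℝ) : ℂ) • x, fun n => ?_, ?_⟩
        · show R.opNorm (((r : ℝ) : ℂ) • x n) ≤ r
          rw [op_smul, hc']
          have := hx n
          nlinarith
        · rw [map_smul, map_smul, hxz, smul_smul, mul_inv_cancel₀ hne, one_smul]
      · rintro ⟨x, hx, rfl⟩
        have h1 := (hball1 (((r : ℝ) : ℂ)⁻¹ • e (π x))).2 ⟨((r : ℝ) : ℂ)⁻¹ • x, fun n => by
          show R.opNorm (((r : ℝ) : ℂ)⁻¹ • x n) ≤ 1
          rw [op_smul, hc, inv_mul_le_iff₀ hr', mul_one]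
          exact hx n, by rw [map_smul, map_smul]⟩
        rw [op_smul, hc, inv_mul_le_iff₀ hr', mul_one] at h1
        exact h1

section los

variable {R M : TVN} {U : Ultrafilter ℕ} {P : (ℕ →ᵇ R.E) →⋆ₐ[ℂ] M.E}

theorem IsUlt.norm2 (h : IsUlt R M U P) (x : ℕ →ᵇ R.E) :
    Tendsto (fun n => R.norm2 (x n)) U (𝓝 (M.norm2 (P x))) := by
  have h1 := h.trace (star x * x)
  rw [map_mul, map_star] at h1
  exact (Real.continuous_sqrt.tendsto _).comp ((Complex.continuous_re.tendsto _).comp h1)

/-- the value of a term in the algebra of bounded sequences -/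
noncomputable def bval {V : Type} (x : V → (ℕ →ᵇ R.E)) : Tm V → (ℕ →ᵇ R.E)
  | .var v => x v
  | .one => 1
  | .add s t => bval x s + bval x t
  | .mul s t => bval x s * bval x t
  | .adj s => star (bval x s)
  | .scal c s => c • bval x s

theorem bval_apply {V : Type} (x : V → (ℕ →ᵇ R.E)) (k : ℕ) : ∀ t : Tm V,
    bval x t k = tval R (fun v => x v k) t
  | .var v => rfl
  | .one => rfl
  | .add s t => by
    show bval x s k + bval x t k = tval R _ s + tval R _ t
    rw [bval_apply x k s, bval_apply x k t]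
  | .mul s t => by
    show bval x s k * bval x t k = tval R _ s * tval R _ t
    rw [bval_apply x k s, bval_apply x k t]
  | .adj s => by
    show star (bval x s k) = star (tval R _ s)
    rw [bval_apply x k s]
  | .scal c s => by
    show c • bval x s k = c • tval R _ s
    rw [bval_apply x k s]

theorem map_bval {V : Type} (P : (ℕ →ᵇ R.E) →⋆ₐ[ℂ] M.E) (x : V → (ℕ →ᵇ R.E)) : ∀ t : Tm V,
    P (bval x t) = tval M (fun v => P (x v)) t
  | .var v => rfl
  | .one => map_one P
  | .add s t => by
    show P (bval x s + bval x t) = tval M _ s + tval M _ t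
    rw [map_add, map_bval P x s, map_bval P x t]
  | .mul s t => by
    show P (bval x s * bval x t) = tval M _ s * tval M _ t
    rw [map_mul, map_bval P x s, map_bval P x t]
  | .adj s => by
    show P (star (bval x s)) = star (tval M _ s)
    rw [map_star, map_bval P x s]
  | .scal c s => by
    show P (c • bval x s) = c • tval M _ s
    rw [map_smul, map_bval P x s]

theorem exists_bound_seq {n : ℕ} (x : Fin n → (ℕ →ᵇ R.E)) :
    ∃ C : ℝ, 0 ≤ C ∧ ∀ k i, R.opNorm (x i k) ≤ C := by
  refine ⟨∑ i, ‖x i‖, Finset.sum_nonneg fun i _ => norm_nonneg _, fun k i => ?_⟩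
  refine ((x i).norm_coe_le_norm k).trans ?_
  exact Finset.single_le_sum (f := fun i => ‖x i‖) (fun i _ => norm_nonneg _) (Finset.mem_univ i)

/-- the theorem of Łoś -/
theorem los (h : IsUlt R M U P) {n : ℕ} (φ : Fm n) : ∀ x : Fin n → (ℕ →ᵇ R.E),
    Tendsto (fun k => φ.val (str R) (fun i => x i k : Fin n → R.E)) U
      (𝓝 (φ.val (str M) (fun i => P (x i) : Fin n → M.E))) := by
  induction φ with
  | re t =>
    intro x
    have h1 := (Complex.continuous_re.tendsto _).comp (h.trace (bval x t))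
    rw [map_bval] at h1
    refine h1.congr fun k => ?_
    show (R.τ (bval x t k)).re = _
    rw [bval_apply]
    rfl
  | im t =>
    intro x
    have h1 := (Complex.continuous_im.tendsto _).comp (h.trace (bval x t))
    rw [map_bval] at h1
    refine h1.congr fun k => ?_
    show (R.τ (bval x t k)).im = _
    rw [bval_apply]
    rfl
  | nrm t =>
    intro x
    have h1 := h.norm2 (bval x t)
    rw [map_bval] at h1
    refine h1.congr fun k => ?_
    rw [bval_apply]
    rfl
  | conn u φ ih =>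
    intro x
    exact (u.continuous.tendsto _).comp (tendsto_pi_nhds.2 fun i => ih i x)
  | @sup n r φ ih =>
    intro x
    obtain ⟨C0, hC0, hx⟩ := exists_bound_seq x
    obtain ⟨C, hC⟩ := (good φ).1 (max C0 r) (by positivity)
    have hbR : ∀ k (y : (str R).Ball r),
        |φ.val (str R) (Fin.cons y.1 fun i => x i k : Fin (n + 1) → R.E)| ≤ C :=
      fun k y => hC R _ (cons_op (hx k) y)
    obtain ⟨D0, hD0, hPx⟩ : ∃ D0 : ℝ, 0 ≤ D0 ∧ ∀ i, M.opNorm (P (x i)) ≤ D0 :=
      ⟨∑ i, M.opNorm (P (x i)), Finset.sum_nonneg fun i _ => op_nonneg M _, fun i =>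
        Finset.single_le_sum (f := fun i => M.opNorm (P (x i))) (fun i _ => op_nonneg M _)
          (Finset.mem_univ i)⟩
    obtain ⟨D, hD⟩ := (good φ).1 (max D0 r) (by positivity)
    have hbM : ∀ (y : (str M).Ball r),
        |φ.val (str M) (Fin.cons y.1 fun i => P (x i) : Fin (n + 1) → M.E)| ≤ D :=
      fun y => hD M _ (cons_op hPx y)
    have hlim : ∀ y : ℕ →ᵇ R.E, Tendsto (fun k => φ.val (str R)
        (Fin.cons (y k) fun i => x i k : Fin (n + 1) → R.E)) U
        (𝓝 (φ.val (str M) (Fin.cons (P y) fun i => P (x i) : Fin (n + 1) → M.E))) := by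
      intro y
      have h1 := ih (Fin.cons y x : Fin (n + 1) → (ℕ →ᵇ R.E))
      have e1 : (fun i => P ((Fin.cons y x : Fin (n + 1) → (ℕ →ᵇ R.E)) i)) =
          (Fin.cons (P y) fun i => P (x i) : Fin (n + 1) → M.E) := by
        funext i
        refine Fin.cases rfl (fun i => rfl) i
      rw [e1] at h1
      refine h1.congr fun k => ?_
      congr 1
      funext i
      refine Fin.cases rfl (fun i => rfl) i
    have := ball_nonempty R r
    have := ball_nonempty M r
    show Tendsto (fun k => ⨆ y : (str R).Ball r, φ.val (str R)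
      (Fin.cons y.1 fun i => x i k : Fin (n + 1) → R.E)) U
      (𝓝 (⨆ y : (str M).Ball r, φ.val (str M)
        (Fin.cons y.1 fun i => P (x i) : Fin (n + 1) → M.E)))
    rw [tendsto_order]
    constructor
    · intro a ha
      obtain ⟨z, hz⟩ := exists_lt_of_lt_ciSup ha
      obtain ⟨y, hy, hyz⟩ := (h.ball r z.1).1 z.2
      have h1 := hlim y
      rw [hyz] at h1
      refine ((tendsto_order.1 h1).1 a hz).mono fun k hk => lt_of_lt_of_le hk ?_
      exact le_ciSup (f := fun y : (str R).Ball r => φ.val (str R)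
        (Fin.cons y.1 fun i => x i k : Fin (n + 1) → R.E))
        ⟨C, by rintro _ ⟨y, rfl⟩; exact (abs_le.1 (hbR k y)).2⟩ ⟨y k, hy k⟩
    · intro a ha
      obtain ⟨b, hb1, hb2⟩ := exists_between ha
      have hex : ∀ k, ∃ y : (str R).Ball r, (⨆ y : (str R).Ball r, φ.val (str R)
          (Fin.cons y.1 fun i => x i k : Fin (n + 1) → R.E)) - (a - b) <
          φ.val (str R) (Fin.cons y.1 fun i => x i k : Fin (n + 1) → R.E) := by
        intro k
        exact exists_lt_of_lt_ciSup (by linarith)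
      choose y hy using hex
      let y' : ℕ → R.E := fun k => (y k).1
      have hyb : ∀ k, ‖y' k‖ ≤ r := fun k => (y k).2
      let Y : ℕ →ᵇ R.E := BoundedContinuousFunction.ofNormedAddCommGroupDiscrete y' r hyb
      have h1 := hlim Y
      have h2 : φ.val (str M) (Fin.cons (P Y) fun i => P (x i) : Fin (n + 1) → M.E) ≤
          ⨆ y : (str M).Ball r, φ.val (str M)
            (Fin.cons y.1 fun i => P (x i) : Fin (n + 1) → M.E) :=
        le_ciSup (f := fun y : (str M).Ball r => φ.val (str M)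
          (Fin.cons y.1 fun i => P (x i) : Fin (n + 1) → M.E))
          ⟨D, by rintro _ ⟨y, rfl⟩; exact (abs_le.1 (hbM y)).2⟩
          ⟨P Y, (h.ball r _).2 ⟨Y, hyb, rfl⟩⟩
      refine ((tendsto_order.1 h1).2 b (lt_of_le_of_lt h2 hb1)).mono fun k hk => ?_
      have h3 := hy k
      have h4 : φ.val (str R) (Fin.cons (y k).1 fun i => x i k : Fin (n + 1) → R.E) < b := hk
      linarith
  | @inf n r φ ih =>
    intro x
    obtain ⟨C0, hC0, hx⟩ := exists_bound_seq x
    obtain ⟨C, hC⟩ := (good φ).1 (max C0 r) (by positivity)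
    have hbR : ∀ k (y : (str R).Ball r),
        |φ.val (str R) (Fin.cons y.1 fun i => x i k : Fin (n + 1) → R.E)| ≤ C :=
      fun k y => hC R _ (cons_op (hx k) y)
    obtain ⟨D0, hD0, hPx⟩ : ∃ D0 : ℝ, 0 ≤ D0 ∧ ∀ i, M.opNorm (P (x i)) ≤ D0 :=
      ⟨∑ i, M.opNorm (P (x i)), Finset.sum_nonneg fun i _ => op_nonneg M _, fun i =>
        Finset.single_le_sum (f := fun i => M.opNorm (P (x i))) (fun i _ => op_nonneg M _)
          (Finset.mem_univ i)⟩
    obtain ⟨D, hD⟩ := (good φ).1 (max D0 r) (by positivity)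
    have hbM : ∀ (y : (str M).Ball r),
        |φ.val (str M) (Fin.cons y.1 fun i => P (x i) : Fin (n + 1) → M.E)| ≤ D :=
      fun y => hD M _ (cons_op hPx y)
    have hlim : ∀ y : ℕ →ᵇ R.E, Tendsto (fun k => φ.val (str R)
        (Fin.cons (y k) fun i => x i k : Fin (n + 1) → R.E)) U
        (𝓝 (φ.val (str M) (Fin.cons (P y) fun i => P (x i) : Fin (n + 1) → M.E))) := by
      intro y
      have h1 := ih (Fin.cons y x : Fin (n + 1) → (ℕ →ᵇ R.E))
      have e1 : (fun i => P ((Fin.cons y x : Fin (n + 1) → (ℕ →ᵇ R.E)) i)) =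
          (Fin.cons (P y) fun i => P (x i) : Fin (n + 1) → M.E) := by
        funext i
        refine Fin.cases rfl (fun i => rfl) i
      rw [e1] at h1
      refine h1.congr fun k => ?_
      congr 1
      funext i
      refine Fin.cases rfl (fun i => rfl) i
    have := ball_nonempty R r
    have := ball_nonempty M r
    show Tendsto (fun k => ⨅ y : (str R).Ball r, φ.val (str R)
      (Fin.cons y.1 fun i => x i k : Fin (n + 1) → R.E)) U
      (𝓝 (⨅ y : (str M).Ball r, φ.val (str M)
        (Fin.cons y.1 fun i => P (x i) : Fin (n + 1) → M.E)))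
    rw [tendsto_order]
    constructor
    · intro a ha
      obtain ⟨b, hb1, hb2⟩ := exists_between ha
      have hex : ∀ k, ∃ y : (str R).Ball r,
          φ.val (str R) (Fin.cons y.1 fun i => x i k : Fin (n + 1) → R.E) <
          (⨅ y : (str R).Ball r, φ.val (str R)
          (Fin.cons y.1 fun i => x i k : Fin (n + 1) → R.E)) + (b - a) := by
        intro k
        exact exists_lt_of_ciInf_lt (by linarith)
      choose y hy using hex
      let y' : ℕ → R.E := fun k => (y k).1
      have hyb : ∀ k, ‖y' k‖ ≤ r := fun k => (y k).2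
      let Y : ℕ →ᵇ R.E := BoundedContinuousFunction.ofNormedAddCommGroupDiscrete y' r hyb
      have h1 := hlim Y
      have h2 : (⨅ y : (str M).Ball r, φ.val (str M)
            (Fin.cons y.1 fun i => P (x i) : Fin (n + 1) → M.E)) ≤
            φ.val (str M) (Fin.cons (P Y) fun i => P (x i) : Fin (n + 1) → M.E) :=
        ciInf_le (f := fun y : (str M).Ball r => φ.val (str M)
          (Fin.cons y.1 fun i => P (x i) : Fin (n + 1) → M.E))
          ⟨-D, by rintro _ ⟨y, rfl⟩; exact (abs_le.1 (hbM y)).1⟩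
          ⟨P Y, (h.ball r _).2 ⟨Y, hyb, rfl⟩⟩
      refine ((tendsto_order.1 h1).1 b (lt_of_lt_of_le hb2 h2)).mono fun k hk => ?_
      have h3 := hy k
      have h4 : b < φ.val (str R) (Fin.cons (y k).1 fun i => x i k : Fin (n + 1) → R.E) := hk
      linarith
    · intro a ha
      obtain ⟨z, hz⟩ := exists_lt_of_ciInf_lt ha
      obtain ⟨y, hy, hyz⟩ := (h.ball r z.1).1 z.2
      have h1 := hlim y
      rw [hyz] at h1
      refine ((tendsto_order.1 h1).2 a hz).mono fun k hk => lt_of_le_of_lt ?_ hk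
      exact ciInf_le (f := fun y : (str R).Ball r => φ.val (str R)
        (Fin.cons y.1 fun i => x i k : Fin (n + 1) → R.E))
        ⟨-C, by rintro _ ⟨y, rfl⟩; exact (abs_le.1 (hbR k y)).1⟩ ⟨y k, hy k⟩

/-- ultrapowers are elementarily equivalent -/
theorem ult_elemEq (h : IsUlt R M U P) : (str R).ElemEq (str M) := by
  intro φ
  have h1 := los h φ Fin.elim0
  have e1 : (fun i => P ((Fin.elim0 : Fin 0 → (ℕ →ᵇ R.E)) i)) = (Fin.elim0 : Fin 0 → M.E) :=
    Subsingleton.elim _ _
  rw [e1] at h1
  refine tendsto_nhds_unique ?_ h1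
  refine tendsto_const_nhds.congr fun k => ?_
  congr 1
  exact Subsingleton.elim _ _

end los

end Pool.Agent.H987S
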