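import Mathlib
import Pool.Agent.H987S.Defs
import Pool.Agent.H987S.Ult
import Pool.Agent.H987S.Perm

/-! # The theory of the hyperfinite II_1 factor is not simple -/

set_option autoImplicit false

namespace Pool.Agent.H987S

open Filter Topology
open scoped BoundedContinuousFunction
open Pool.Agent.H504R3 (TVN M2 pm Cmm exists_perm Ws Ws_single pauliSys sz pz PauliSys.on)
open Pool.Agent.H504R3.S
open Pool.Agent.R970.SI

/-- the index set of the tensor factors -/
abbrev TT : Type := Option ℕ × (ℕ → Bool)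

/-- the tensor factor at stage `n` -/
def code (t : TT) (n : ℕ) : ℕ := Encodable.encode (t.1, List.ofFn fun l : Fin n => t.2 l)

theorem code_ne {t t' : TT} (h : t ≠ t') : ∀ᶠ n in atTop, code t n ≠ code t' n := by
  by_cases h1 : t.1 = t'.1
  · obtain ⟨l, hl⟩ : ∃ l, t.2 l ≠ t'.2 l := by
      by_contra hne
      push Not at hne
      exact h (Prod.ext h1 (funext hne))
    refine (eventually_gt_atTop l).mono fun n hn he => hl ?_
    have h2 : (t.1, List.ofFn fun l : Fin n => t.2 l) = (t'.1, List.ofFn fun l : Fin n => t'.2 l) :=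
      Encodable.encode_injective he
    have h3 := List.ofFn_injective (congrArg Prod.snd h2)
    exact congrFun h3 ⟨l, hn⟩
  · refine Eventually.of_forall fun n he => h1 ?_
    have h2 : (t.1, List.ofFn fun l : Fin n => t.2 l) = (t'.1, List.ofFn fun l : Fin n => t'.2 l) :=
      Encodable.encode_injective he
    exact (Prod.mk.inj h2).1

section

variable {R M : TVN} {U : Ultrafilter ℕ} {P : (ℕ →ᵇ R.E) →⋆ₐ[ℂ] M.E}
  {j : ℕ → (M2 →⋆ₐ[ℂ] R.E)}

theorem star_jz (j : ℕ → (M2 →⋆ₐ[ℂ] R.E)) (k : ℕ) :
    star (j k (pm (0, 1))) * j k (pm (0, 1)) = 1 := by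
  rw [← map_star, sz, ← map_mul, pz, map_one]

/-- the sequence of Pauli matrices -/
noncomputable def zs (j : ℕ → (M2 →⋆ₐ[ℂ] R.E)) (t : TT) : ℕ →ᵇ R.E :=
  BoundedContinuousFunction.ofNormedAddCommGroupDiscrete (fun n => j (code t n) (pm (0, 1))) 1
    (fun _ => op_unitary R (star_jz j _))

theorem zs_apply (j : ℕ → (M2 →⋆ₐ[ℂ] R.E)) (t : TT) (n : ℕ) :
    zs j t n = j (code t n) (pm (0, 1)) := rfl

theorem n2_jz (hc : Cmm j) {k l : ℕ} (hkl : k ≠ l) :
    R.norm2 (j k (pm (0, 1)) - j l (pm (0, 1))) = Real.sqrt 2 := by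
  have hon := PauliSys.on (pauliSys hc R.trAlg)
  have hkl' : (Finsupp.single k ((0, 1) : ZMod 2 × ZMod 2)) ≠
      Finsupp.single l ((0, 1) : ZMod 2 × ZMod 2) := by
    intro he
    have h1 := (Finsupp.single_eq_single_iff _ _ _ _).1 he
    rcases h1 with h1 | h1
    · exact hkl h1.1
    · exact absurd h1.1 (by decide)
  have h1 := hon (Finsupp.single k (0, 1)) (Finsupp.single l (0, 1))
  have h2 := hon (Finsupp.single l (0, 1)) (Finsupp.single k (0, 1))
  rw [Ws_single, Ws_single, if_neg hkl'] at h1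
  rw [Ws_single, Ws_single, if_neg hkl'.symm] at h2
  unfold TVN.norm2
  congr 1
  have e : star (j k (pm (0, 1)) - j l (pm (0, 1))) * (j k (pm (0, 1)) - j l (pm (0, 1))) =
      (1 + 1) - star (j k (pm (0, 1))) * j l (pm (0, 1)) -
        star (j l (pm (0, 1))) * j k (pm (0, 1)) := by
    rw [star_sub, sub_mul, mul_sub, mul_sub, star_jz, star_jz]
    abel
  rw [e, map_sub, map_sub, h1, h2, map_add, R.map_one]
  norm_num

theorem n2_a (h : IsUlt R M U P) (hU : (U : Filter ℕ) ≤ atTop) (hc : Cmm j) {t t' : TT}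
    (hne : t ≠ t') : M.norm2 (P (zs j t) - P (zs j t')) = Real.sqrt 2 := by
  have h1 := h.norm2 (zs j t - zs j t')
  rw [map_sub] at h1
  refine tendsto_nhds_unique h1 ?_
  refine tendsto_const_nhds.congr' (((code_ne hne).filter_mono hU).mono fun n hn => ?_)
  exact (n2_jz hc hn).symm

theorem val_a (h : IsUlt R M U P) (hU : (U : Filter ℕ) ≤ atTop) (hc : Cmm j) {q : ℕ} (φ : Fm q)
    (t t' : Fin q → TT) (htt : ∀ l l', t l = t l' ↔ t' l = t' l') :
    φ.val (str M) (fun l => P (zs j (t l)) : Fin q → M.E) =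
      φ.val (str M) (fun l => P (zs j (t' l)) : Fin q → M.E) := by
  have h1 := los h φ (fun l => zs j (t l))
  have h2 := los h φ (fun l => zs j (t' l))
  refine tendsto_nhds_unique h1 (h2.congr' ?_)
  have h3 : ∀ l l', ∀ᶠ n in (U : Filter ℕ),
      (code (t l) n = code (t l') n ↔ code (t' l) n = code (t' l') n) := by
    intro l l'
    by_cases he : t l = t l'
    · refine Eventually.of_forall fun n => ?_
      exact ⟨fun _ => by rw [(htt l l').1 he], fun _ => by rw [he]⟩
    · have he' : t' l ≠ t' l' := fun h0 => he ((htt l l').2 h0)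
      refine (((code_ne he).and (code_ne he')).filter_mono hU).mono fun n hn => ?_
      exact ⟨fun h4 => absurd h4 hn.1, fun h4 => absurd h4 hn.2⟩
  have h4 : ∀ᶠ n in (U : Filter ℕ), ∀ l l',
      (code (t l) n = code (t l') n ↔ code (t' l) n = code (t' l') n) := by
    rw [eventually_all]
    intro l
    rw [eventually_all]
    exact h3 l
  refine h4.mono fun n hn => ?_
  exact (val_perm hc (pm (0, 1)) φ (fun l => code (t l) n) (fun l => code (t' l) n) hn).symm

theorem exists_x (h : IsUlt R M U P) (hc : Cmm j) : ∃ x : M.E, M.opNorm x ≤ 1 ∧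
    ∀ i : ℕ → Bool, x * P (zs j (none, i)) * star x = P (zs j (some 0, i)) := by
  have hu : ∀ n : ℕ, ∃ u : R.E, star u * u = 1 ∧ u * star u = 1 ∧ ∀ s : Fin n → Bool,
      u * j (Encodable.encode ((none : Option ℕ), List.ofFn s)) (pm (0, 1)) =
        j (Encodable.encode ((some 0 : Option ℕ), List.ofFn s)) (pm (0, 1)) * u := by
    intro n
    set eq := Fintype.equivFin (Fin n → Bool) with heq
    obtain ⟨σ, hσ, h1⟩ := exists_ext (Fintype.card (Fin n → Bool))
      (fun l => Encodable.encode ((none : Option ℕ), List.ofFn (eq.symm l)))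
      (fun l => Encodable.encode ((some 0 : Option ℕ), List.ofFn (eq.symm l))) (by
        intro l l'
        constructor
        · intro he
          have h2 := List.ofFn_injective (congrArg Prod.snd (Encodable.encode_injective he))
          rw [eq.symm.injective h2]
        · intro he
          have h2 := List.ofFn_injective (congrArg Prod.snd (Encodable.encode_injective he))
          rw [eq.symm.injective h2])
    obtain ⟨u, hu1, hu2, hu3⟩ := exists_perm hc σ hσ
    refine ⟨u, hu1, hu2, fun s => ?_⟩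
    have h2 := h1 (eq s)
    simp only [Equiv.symm_apply_apply] at h2
    rw [hu3, h2]
  choose u hu1 hu2 hu3 using hu
  let X : ℕ →ᵇ R.E := BoundedContinuousFunction.ofNormedAddCommGroupDiscrete u 1
    (fun n => op_unitary R (hu1 n))
  refine ⟨P X, ?_, fun i => ?_⟩
  · have h1 := (h.ball 1 (P X)).2 ⟨X, fun n => by
      rw [Nat.cast_one]
      exact op_unitary R (hu1 n), rfl⟩
    rwa [Nat.cast_one] at h1
  · rw [← map_star, ← map_mul, ← map_mul]
    congr 1
    ext1 n
    show u n * j (code (none, i) n) (pm (0, 1)) * star (u n) = j (code (some 0, i) n) (pm (0, 1))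
    have h1 := hu3 n (fun l => i l)
    have h2 : u n * j (code (none, i) n) (pm (0, 1)) = j (code (some 0, i) n) (pm (0, 1)) * u n := h1
    rw [h2, mul_assoc, hu2, mul_one]

end

/-- there are uncountably many binary sequences -/
theorem exists_not_mem {S : Set (ℕ → Bool)} (hS : S.Countable) : ∃ i, i ∉ S := by
  by_contra hne
  push Not at hne
  have h1 : S.Nonempty := ⟨fun _ => true, hne _⟩
  obtain ⟨f, hf⟩ := hS.exists_eq_range h1
  obtain ⟨n, hn⟩ : ∃ n, f n = fun m => !(f m m) := by
    have := hne (fun m => !(f m m))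
    rw [hf] at this
    exact this
  have h2 := congrFun hn n
  simp at h2

/-- moving the factor `(some 0, i)` to `(some k, i)` -/
noncomputable def mv (i : ℕ → Bool) (k : ℕ) (t : TT) : TT :=
  open Classical in if t = (some 0, i) then (some k, i) else t

theorem mv_pos (i : ℕ → Bool) (k : ℕ) : mv i k (some 0, i) = (some k, i) := by
  unfold mv
  rw [if_pos rfl]

theorem mv_neg {i : ℕ → Bool} (k : ℕ) {t : TT} (ht : t ≠ (some 0, i)) : mv i k t = t := by
  unfold mv
  rw [if_neg ht]

/-- admissible indices -/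
def Adm (t : TT) : Prop := t.1 = none ∨ t.1 = some 0

theorem mv_iff (i : ℕ → Bool) {k : ℕ} {f g : Fin k → ℕ} (hf : StrictMono f) (hg : StrictMono g)
    (c c' : Fin k) {t t' : TT} (ht : Adm t) (ht' : Adm t') :
    (mv i (f c) t = mv i (f c') t' ↔ mv i (g c) t = mv i (g c') t') := by
  have key : ∀ (f : Fin k → ℕ), StrictMono f → ∀ (c : Fin k) (t : TT), Adm t → t ≠ (some 0, i) →
      (some (f c), i) ≠ t := by
    intro f _ c t hadm hne he
    subst he
    rcases hadm with h1 | h1
    · exact Option.some_ne_none _ h1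
    · exact hne (Prod.ext h1 rfl)
  by_cases h1 : t = (some 0, i)
  · by_cases h2 : t' = (some 0, i)
    · subst h1 h2
      rw [mv_pos, mv_pos, mv_pos, mv_pos]
      constructor
      · intro he
        have h3 : f c = f c' := Option.some.inj (congrArg Prod.fst he)
        rw [hf.injective h3]
      · intro he
        have h3 : g c = g c' := Option.some.inj (congrArg Prod.fst he)
        rw [hg.injective h3]
    · subst h1
      rw [mv_pos, mv_pos, mv_neg _ h2, mv_neg _ h2]
      exact ⟨fun he => absurd he (key f hf c t' ht' h2), fun he => absurd he (key g hg c t' ht' h2)⟩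
  · by_cases h2 : t' = (some 0, i)
    · subst h2
      rw [mv_pos, mv_pos, mv_neg _ h1, mv_neg _ h1]
      exact ⟨fun he => absurd he.symm (key f hf c' t ht h1),
        fun he => absurd he.symm (key g hg c' t ht h1)⟩
    · rw [mv_neg _ h1, mv_neg _ h1, mv_neg _ h2, mv_neg _ h2]

theorem mv_iff' (i : ℕ → Bool) {k : ℕ} {f g : Fin k → ℕ} (c : Fin k) {t t' : TT} (ht' : Adm t')
    (hne : t' ≠ (some 0, i)) : (mv i (f c) t = t' ↔ mv i (g c) t = t') := by
  by_cases h1 : t = (some 0, i)
  · subst h1
    rw [mv_pos, mv_pos]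
    have key : ∀ m : ℕ, (some m, i) ≠ t' := by
      intro m he
      subst he
      rcases ht' with h1 | h1
      · exact Option.some_ne_none _ h1
      · exact hne (Prod.ext h1 rfl)
    exact ⟨fun he => absurd he (key _), fun he => absurd he (key _)⟩
  · rw [mv_neg _ h1, mv_neg _ h1]

/-- the term `x y x* - z` -/
noncomputable def tmx : Tm (Fin (1 + 2)) :=
  .add (.mul (.mul (.var (Fin.castAdd 2 0)) (.var (Fin.natAdd 1 0)))
    (.adj (.var (Fin.castAdd 2 0)))) (.scal (-1) (.var (Fin.natAdd 1 1)))

theorem tmx_val (M : TVN) (x : Fin 1 → M.E) (y : Fin 2 → M.E) :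
    (Fm.nrm tmx).val (str M) (Fin.append x y : Fin (1 + 2) → M.E) =
      M.norm2 (x 0 * y 0 * star (x 0) - y 1) := by
  show M.norm2 (tval M (Fin.append x y) tmx) = _
  have h1 : (Fin.append x y : Fin (1 + 2) → M.E) (Fin.castAdd 2 0) = x 0 := Fin.append_left _ _ _
  have h2 : (Fin.append x y : Fin (1 + 2) → M.E) (Fin.natAdd 1 0) = y 0 := Fin.append_right _ _ _
  have h3 : (Fin.append x y : Fin (1 + 2) → M.E) (Fin.natAdd 1 1) = y 1 := Fin.append_right _ _ _
  have h4 : tval M (Fin.append x y) tmx =
      (Fin.append x y : Fin (1 + 2) → M.E) (Fin.castAdd 2 0) *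
        (Fin.append x y : Fin (1 + 2) → M.E) (Fin.natAdd 1 0) *
        star ((Fin.append x y : Fin (1 + 2) → M.E) (Fin.castAdd 2 0)) +
        (-1 : ℂ) • (Fin.append x y : Fin (1 + 2) → M.E) (Fin.natAdd 1 1) := rfl
  rw [h4, h1, h2, h3, neg_one_smul, sub_eq_add_neg]

/-- The theory of the hyperfinite II_1 factor is not simple. -/
theorem not_simple (R : Str) (hR : R.IsHyperfinite) : ¬ IsSimpleTheory R := by
  classical
  obtain ⟨R0, rfl⟩ := exists_tvn R hR.1
  obtain ⟨j, hc, _⟩ := hyp_of R0 hR
  have hU : ((hyperfilter ℕ : Ultrafilter ℕ) : Filter ℕ) ≤ atTop := Nat.hyperfilter_le_atTop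
  have hU' : ∀ n : ℕ, {n} ∉ hyperfilter ℕ := fun n =>
    notMem_hyperfilter_of_finite (Set.finite_singleton n)
  obtain ⟨M, P, h⟩ := exists_ult R0 (hyperfilter ℕ) hU'
  intro hs
  obtain ⟨x, hx1, hx⟩ := exists_x h hc
  set a : TT → M.E := fun t => P (zs j t) with ha
  have hdist : ∀ t t', t ≠ t' → M.norm2 (a t - a t') = Real.sqrt 2 := fun t t' hne =>
    n2_a h hU hc hne
  have hinj : Function.Injective a := by
    intro t t' he
    by_contra hne
    have h1 := hdist t t' hne
    rw [he, norm2_self] at h1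
    have h2 : 0 < Real.sqrt 2 := by positivity
    linarith
  have h2lt : (1 : ℝ) < Real.sqrt 2 := by
    rw [Real.lt_sqrt (by norm_num)]
    norm_num
  let B : Set M.E := {y | ∃ t : TT, Adm t ∧ a t = y}
  have hB : ∀ b : B, ∃ t : TT, Adm t ∧ a t = b.1 := fun b => b.2
  choose tt htt1 htt2 using hB
  let p : PFm 1 B → ℝ := fun ψ => ψ.val (str M) (fun b : B => (b : M.E)) (fun _ => x)
  have hp : IsType (str M) B 1 1 p := by
    intro F hF ε hε
    refine ⟨fun _ => x, fun _ => ?_, ?_⟩
    · show M.opNorm x ≤ ((1 : ℕ) : ℝ)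
      rw [Nat.cast_one]
      exact hx1
    · intro c hcF
      obtain ⟨ψ, rfl⟩ := hF hcF
      show |ψ.val (str M) (fun b : B => (b : M.E)) (fun _ => x) - p ψ| < ε
      rw [sub_self, abs_zero]
      exact hε
  obtain ⟨A, hAB, ⟨S, hSc, hSA, hSd⟩, hdiv⟩ :=
    hs (str M) (isTVN M) (ult_elemEq h) B 1 1 p hp
  apply hdiv
  -- `A` is countable
  have hAS : A ⊆ S := by
    intro y hy
    obtain ⟨z, hz, hyz⟩ := hSd y hy 1 one_pos
    obtain ⟨t, _, hty⟩ := hAB hy
    obtain ⟨t', _, htz⟩ := hAB (hSA hz)
    have h1 : M.norm2 (a t - a t') < 1 := by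
      rw [hty, htz]
      have h2 := hyz
      rw [sub_eq] at h2
      exact h2
    by_cases he : t = t'
    · have : y = z := by rw [← hty, ← htz, he]
      rw [this]
      exact hz
    · rw [hdist t t' he] at h1
      linarith
  have hAc : A.Countable := hSc.mono hAS
  obtain ⟨i, hi⟩ := exists_not_mem (S := {i | a (some 0, i) ∈ A}) (by
    have hinj' : Function.Injective (fun i : ℕ → Bool => a (some 0, i)) := by
      intro i i' he
      exact congrArg Prod.snd (hinj he)
    exact hAc.preimage hinj')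
  have hi' : a (some 0, i) ∉ A := hi
  -- the sequence
  let s : ℕ → B → M.E := fun k b => a (mv i k (tt b))
  have hs0 : ∀ b : B, s 0 b = b.1 := by
    intro b
    show a (mv i 0 (tt b)) = b.1
    by_cases h1 : tt b = (some 0, i)
    · have h2 := htt2 b
      rw [h1] at h2 ⊢
      rw [mv_pos]
      exact h2
    · rw [mv_neg _ h1]
      exact htt2 b
  refine ⟨str M, isTVN M, id, fun n φ y => rfl, s, funext hs0, ?_, ?_⟩
  · -- indiscernible
    intro k m φ w f g hf hg
    have hA' : ∀ y : (id '' A : Set M.E), ∃ t : TT, Adm t ∧ t ≠ (some 0, i) ∧ a t = y.1 := by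
      intro y
      have hy : y.1 ∈ A := by
        obtain ⟨z, hz, hzy⟩ := y.2
        have hzy' : z = y.1 := hzy
        rw [← hzy']
        exact hz
      obtain ⟨t, ht, hty⟩ := hAB hy
      refine ⟨t, ht, fun h0 => hi' ?_, hty⟩
      rw [← h0, hty]
      exact hy
    choose ta hta1 hta2 hta3 using hA'
    let T : (Fin k → ℕ) → Fin m → TT := fun f l =>
      Sum.elim (fun c : Fin k × B => mv i (f c.1) (tt c.2)) (fun y => ta y) (w l)
    have hT : ∀ f : Fin k → ℕ, (fun l => Sum.elim (fun t : Fin k × B => s (f t.1) t.2)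
        (fun y : (id '' A : Set M.E) => (y : M.E)) (w l)) = fun l => a (T f l) := by
      intro f
      funext l
      show Sum.elim (fun t : Fin k × B => s (f t.1) t.2)
        (fun y : (id '' A : Set M.E) => (y : M.E)) (w l) =
        a (Sum.elim (fun c : Fin k × B => mv i (f c.1) (tt c.2)) (fun y => ta y) (w l))
      cases w l with
      | inl c => rfl
      | inr y => exact (hta3 y).symm
    have key : ∀ l l', T f l = T f l' ↔ T g l = T g l' := by
      intro l l'
      show (Sum.elim (fun c : Fin k × B => mv i (f c.1) (tt c.2)) (fun y => ta y) (w l) =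
        Sum.elim (fun c : Fin k × B => mv i (f c.1) (tt c.2)) (fun y => ta y) (w l')) ↔
        (Sum.elim (fun c : Fin k × B => mv i (g c.1) (tt c.2)) (fun y => ta y) (w l) =
        Sum.elim (fun c : Fin k × B => mv i (g c.1) (tt c.2)) (fun y => ta y) (w l'))
      cases w l with
      | inl c =>
        cases w l' with
        | inl c' => exact mv_iff i hf hg c.1 c'.1 (htt1 c.2) (htt1 c'.2)
        | inr y' => exact mv_iff' i c.1 (hta1 y') (hta2 y')
      | inr y =>
        cases w l' with
        | inl c' =>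
          constructor
          · intro he
            exact ((mv_iff' i c'.1 (hta1 y) (hta2 y)).1 he.symm).symm
          · intro he
            exact ((mv_iff' i c'.1 (hta1 y) (hta2 y)).1 he.symm).symm
        | inr y' => exact Iff.rfl
    have h1 := val_a h hU hc φ (T f) (T g) key
    have e1 := congrArg (fun v : Fin m → M.E => φ.val (str M) v) (hT f)
    have e2 := congrArg (fun v : Fin m → M.E => φ.val (str M) v) (hT g)
    exact e1.trans (h1.trans e2.symm)
  · -- inconsistent
    intro hcons
    let b1 : B := ⟨a (none, i), (none, i), Or.inl rfl, rfl⟩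
    let b2 : B := ⟨a (some 0, i), (some 0, i), Or.inr rfl, rfl⟩
    have ht1 : tt b1 = (none, i) := hinj (htt2 b1)
    have ht2 : tt b2 = (some 0, i) := hinj (htt2 b2)
    have hs1 : ∀ k, s k b1 = a (none, i) := by
      intro k
      show a (mv i k (tt b1)) = _
      rw [ht1, mv_neg]
      intro h0
      exact Option.some_ne_none 0 (congrArg Prod.fst h0).symm
    have hs2 : ∀ k, s k b2 = a (some k, i) := by
      intro k
      show a (mv i k (tt b2)) = _
      rw [ht2, mv_pos]
    let ψ : PFm 1 B := ⟨2, Fm.nrm tmx, ![b1, b2]⟩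
    have hψ : ∀ (s' : B → M.E) (y : Fin 1 → M.E), ψ.val (str M) s' y =
        M.norm2 (y 0 * s' b1 * star (y 0) - s' b2) := by
      intro s' y
      exact tmx_val M y (fun l => s' (![b1, b2] l))
    have hpψ : p ψ = 0 := by
      show ψ.val (str M) (fun b : B => (b : M.E)) (fun _ => x) = 0
      rw [hψ]
      show M.norm2 (x * a (none, i) * star x - a (some 0, i)) = 0
      rw [hx i, norm2_self]
    let c0 : Cond (str M) 1 := (ψ.map (s 0), p ψ)
    let c1 : Cond (str M) 1 := (ψ.map (s 1), p ψ)
    obtain ⟨y, _, hy⟩ := hcons ({c0, c1} : Finset (Cond (str M) 1)) (by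
      intro c hcc
      rcases Finset.mem_insert.1 (Finset.mem_coe.1 hcc) with h1 | h1
      · rw [h1]
        exact Set.mem_iUnion.2 ⟨0, ψ, rfl⟩
      · rw [Finset.mem_singleton.1 h1]
        exact Set.mem_iUnion.2 ⟨1, ψ, rfl⟩) (1 / 2) (by norm_num)
    let y' : Fin 1 → M.E := y
    set z : M.E := y' 0 * a (none, i) * star (y' 0) with hz
    have h0 := hy c0 (Finset.mem_insert_self _ _)
    have h1 := hy c1 (Finset.mem_insert_of_mem (Finset.mem_singleton_self _))
    have e0 : ψ.val (str M) (s 0) y' = M.norm2 (z - a (some 0, i)) := by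
      rw [hψ, hs1, hs2]
    have e1 : ψ.val (str M) (s 1) y' = M.norm2 (z - a (some 1, i)) := by
      rw [hψ, hs1, hs2]
    have h0' : |ψ.val (str M) (s 0) y' - p ψ| < 1 / 2 := h0
    have h1' : |ψ.val (str M) (s 1) y' - p ψ| < 1 / 2 := h1
    rw [e0, hpψ, sub_zero, abs_of_nonneg (norm2_nonneg M _)] at h0'
    rw [e1, hpψ, sub_zero, abs_of_nonneg (norm2_nonneg M _)] at h1'
    have h3 := norm2_tri M (a (some 0, i)) z (a (some 1, i))
    rw [norm2_sub_comm M (a (some 0, i)) z] at h3
    have h4 := hdist (some 0, i) (some 1, i) (by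
      intro he
      have := Option.some.inj (congrArg Prod.fst he)
      exact absurd this (by norm_num))
    rw [h4] at h3
    linarith

end Pool.Agent.H987S
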